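import Pool.Agent.COSB.StmtsL
import Pool.Agent.Helper7_LAT.MCH

/-!
# Squad COSB, row LMC: the predicate of lattice isomorphism is computed in polynomial time
-/

set_option autoImplicit false

namespace Pool.Agent.COSB.H60

open Turing Computability Pool.Agent.UT.Num Pool.Agent.H2XG Pool.Agent.PAR Pool.Agent.COS
open Pool.Agent.COSB Pool.Agent.LATM

variable {m : ℕ}

theorem qnN {A : (Fin m → List K) → Word} (hA : FPW m A) : FPN m (fun ρ => qn (A ρ)) :=
  LAT.H7.leadN hA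

theorem q1W {A : (Fin m → List K) → Word} (hA : FPW m A) : FPW m (fun ρ => q1 (A ρ)) :=
  hA.drop ((qnN hA).add (FPN.const 1))

theorem qwN {A : (Fin m → List K) → Word} (hA : FPW m A) : FPN m (fun ρ => qw (A ρ)) :=
  LAT.H7.leadN (q1W hA)

theorem q2W {A : (Fin m → List K) → Word} (hA : FPW m A) : FPW m (fun ρ => q2 (A ρ)) :=
  (q1W hA).drop ((qwN hA).add (FPN.const 1))

theorem wxN {A : (Fin m → List K) → Word} (hA : FPW m A) : FPN m (fun ρ => wx (A ρ)) :=
  ((qnN hA).add (FPN.const 1)).mul ((qnN hA).add (qwN hA))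

theorem nzI {n w : (Fin m → List K) → ℕ} {u : (Fin m → List K) → Word}
    {i j : (Fin m → List K) → ℕ} (hn : FPN m n) (hw : FPN m w) (hu : FPW m u)
    (hi : FPN m i) (hj : FPN m j) :
    FPI m (fun ρ => nz (n ρ) (w ρ) (u ρ) (i ρ) (j ρ)) :=
  LAT.H7.numI hu (((hi.mul hn).add hj).mul (hw.add (FPN.const 1))) (hw.add (FPN.const 1))

theorem qQI {A : (Fin m → List K) → Word} {i j : (Fin m → List K) → ℕ} (hA : FPW m A)
    (hi : FPN m i) (hj : FPN m j) : FPI m (fun ρ => qQ (A ρ) (i ρ) (j ρ)) :=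
  nzI (qnN hA) (qwN hA) (q2W hA) hi hj

theorem qRI {A : (Fin m → List K) → Word} {i j : (Fin m → List K) → ℕ} (hA : FPW m A)
    (hi : FPN m i) (hj : FPN m j) : FPI m (fun ρ => qR (A ρ) (i ρ) (j ρ)) :=
  nzI (qnN hA) (qwN hA)
    ((q2W hA).drop (((qnN hA).mul (qnN hA)).mul ((qwN hA).add (FPN.const 1)))) hi hj

theorem mulOkP {n w : (Fin m → List K) → ℕ} {u c : (Fin m → List K) → Word}
    (hn : FPN m n) (hw : FPN m w) (hu : FPW m u) (hc : FPW m c) :
    FPP m (fun ρ => MulOk (n ρ) (w ρ) (u ρ) (c ρ)) := by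
  refine FPP.congr (P := fun ρ => ∀ i < n ρ, ∀ j < n ρ,
    ∑ l ∈ Finset.range (n ρ), nz (n ρ) (w ρ) (u ρ) i l * nz (n ρ) (w ρ) (c ρ) l j =
      if i = j then 1 else 0) ?_ (fun ρ => Iff.rfl)
  refine FPP.all hn (FPP.all hn.weak (FPP.eqI ?_
    (FPI.iteP (FPP.eqN FPN.v1 FPN.v0) (FPI.const 1) (FPI.const 0))))
  refine FPI.sum hn.weak.weak (f := fun l σ =>
    nz (n fun i => σ i.succ.succ) (w fun i => σ i.succ.succ) (u fun i => σ i.succ.succ)
      (σ 1).length l *
    nz (n fun i => σ i.succ.succ) (w fun i => σ i.succ.succ) (c fun i => σ i.succ.succ)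
      l (σ 0).length) ?_
  exact (nzI hn.weak.weak.weak hw.weak.weak.weak hu.weak.weak.weak FPN.v1.weak FPN.v0).mul
    (nzI hn.weak.weak.weak hw.weak.weak.weak hc.weak.weak.weak FPN.v0 FPN.v1)

theorem flP {x u c : (Fin m → List K) → Word} (hx : FPW m x) (hu : FPW m u) (hc : FPW m c) :
    FPP m (fun ρ => FL (x ρ) (u ρ) (c ρ)) := by
  refine FPP.and (mulOkP (qnN hx) (wxN hx) hu hc) ?_
  refine FPP.all (qnN hx) (FPP.all (qnN hx.weak) (FPP.eqI ?_
    (qRI hx.weak.weak FPN.v1 FPN.v0)))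
  refine FPI.sum (qnN hx.weak.weak) (f := fun a σ =>
    ∑ b ∈ Finset.range (qn (x fun i => σ i.succ.succ)),
      nz (qn (x fun i => σ i.succ.succ)) (wx (x fun i => σ i.succ.succ))
        (u fun i => σ i.succ.succ) (σ 1).length a * qQ (x fun i => σ i.succ.succ) a b *
      nz (qn (x fun i => σ i.succ.succ)) (wx (x fun i => σ i.succ.succ))
        (u fun i => σ i.succ.succ) (σ 0).length b) ?_
  refine FPI.sum (qnN hx.weak.weak.weak) (f := fun b τ =>
      nz (qn (x fun i => τ i.succ.succ.succ)) (wx (x fun i => τ i.succ.succ.succ))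
        (u fun i => τ i.succ.succ.succ) (τ 2).length (τ 0).length *
        qQ (x fun i => τ i.succ.succ.succ) (τ 0).length b *
      nz (qn (x fun i => τ i.succ.succ.succ)) (wx (x fun i => τ i.succ.succ.succ))
        (u fun i => τ i.succ.succ.succ) (τ 1).length b) ?_
  have hx4 := hx.weak.weak.weak.weak
  have hu4 := hu.weak.weak.weak.weak
  exact ((nzI (qnN hx4) (wxN hx4) hu4 FPN.v1.weak.weak FPN.v1).mul
    (qQI hx4 FPN.v1 FPN.v0)).mul
    (nzI (qnN hx4) (wxN hx4) hu4 FPN.v1.weak FPN.v0)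

/-- **Row LMC** -/
theorem lmc : LmcStmt := by
  classical
  refine ⟨?_, fun m A hA => qnN hA, fun m A hA => wxN hA⟩
  intro m x a a' u c hx _ _ hu hc
  exact FPP.decide' (flP hx hu hc) fun ρ => by simp [fL]

end Pool.Agent.COSB.H60
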