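import Pool.Agent.COSB.StmtsB

/-!
# Squad COSB, row MEM: `memW` is computed in polynomial time
-/

set_option autoImplicit false

namespace Pool.Agent.COSB.H60

open Turing Computability Pool.Agent.UT.Num Pool.Agent.H2XG Pool.Agent.PAR Pool.Agent.COS
open Pool.Agent.COSB

variable {m : ℕ}

theorem gtF {n : (Fin m → List K) → ℕ} {w : (Fin m → List K) → Word}
    {i j : (Fin m → List K) → ℕ} (hn : FPN m n) (hw : FPW m w) (hi : FPN m i) (hj : FPN m j) :
    FPB m (fun ρ => gt (n ρ) (w ρ) (i ρ) (j ρ)) :=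
  FPW.getD hw (FPN.add (FPN.mul hi hn) hj)

theorem blF {N : (Fin m → List K) → ℕ} {w : (Fin m → List K) → Word}
    {i : (Fin m → List K) → ℕ} (hN : FPN m N) (hw : FPW m w) (hi : FPN m i) :
    FPW m (fun ρ => blW (N ρ) (w ρ) (i ρ)) := by
  unfold blW
  exact FPW.take (FPW.drop hw (FPN.mul hi hN)) hN

theorem decEqBool (p q : Bool) : decide (p = q) = (p && q || !p && !q) := by
  cases p <;> cases q <;> rfl

theorem trueF : FPB (C := K) m (fun _ => true) :=
  FPB.congr (FPB.eqN (FPN.const 0) (FPN.const 0)) fun _ => by simp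

section tables

variable (tbl : TblStmt) {F : Type} [Field F] [Fintype F] [DecidableEq F]

include tbl

theorem eqF {u v : (Fin m → List K) → F} (hu : FPW m (fun ρ => cF F (u ρ)))
    (hv : FPW m (fun ρ => cF F (v ρ))) : FPB m (fun ρ => decide (u ρ = v ρ)) :=
  tbl.2.2.2.2.1 F m (fun x y => decide (x = y)) u v hu hv

theorem mulFF {u v : (Fin m → List K) → F} (hu : FPW m (fun ρ => cF F (u ρ)))
    (hv : FPW m (fun ρ => cF F (v ρ))) : FPW m (fun ρ => cF F (u ρ * v ρ)) :=
  tbl.2.2.2.1 F m (fun x y => x * y) u v hu hv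

theorem gFF {n : (Fin m → List K) → ℕ} {w : (Fin m → List K) → Word}
    {i j : (Fin m → List K) → ℕ} (hn : FPN m n) (hw : FPW m w) (hi : FPN m i) (hj : FPN m j) :
    FPW m (fun ρ => cF F (gF F (n ρ) (w ρ) (i ρ) (j ρ))) :=
  tbl.2.2.1 F m w n i j hw hn hi hj

theorem nFF {s : (Fin m → List K) → ℕ} (hs : FPN m s) :
    FPW m (fun ρ => cF F (nF F (s ρ))) := by
  have h := tbl.1 m (Fintype.card F + 1) (fun w => cF F (nF F w.length))
    (fun ρ => ((List.range (s ρ)).map fun _ => true).take (Fintype.card F + 1))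
    (FPW.take (FPW.range hs (b := fun _ _ => true) trueF) (FPN.const _))
    (fun ρ => List.length_take_le _ _)
  refine FPW.congr h fun ρ => ?_
  have h1 : (((List.range (s ρ)).map fun _ => true).take (Fintype.card F + 1)).length =
      min (Fintype.card F + 1) (s ρ) := by simp
  simp only [h1]
  rcases Nat.lt_or_ge (s ρ) (Fintype.card F) with h2 | h2
  · rw [min_eq_right (by omega)]
  · have h3 : ¬ (s ρ < Fintype.card F) := by omega
    have h4 : ¬ (min (Fintype.card F + 1) (s ρ) < Fintype.card F) := by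
      rw [Nat.min_def]
      split <;> omega
    unfold nF
    rw [dif_neg h3, dif_neg h4]

theorem lowF {p : ℕ} {k n : (Fin m → List K) → ℕ} {w : (Fin m → List K) → Word}
    {i j : (Fin m → List K) → ℕ} (hk : FPN m k) (hn : FPN m n) (hw : FPW m w) (hi : FPN m i)
    (hj : FPN m j) :
    FPW m (fun ρ => cF F ((lowP p (k ρ) (n ρ) (w ρ) (i ρ) (j ρ) : ℕ) : F)) :=
  tbl.1 m (db p) (fun u => cF F ((bval u : ℕ) : F))
    (fun ρ => blW (db p) (w ρ) ((i ρ * n ρ + j ρ) * k ρ))
    (blF (FPN.const _) hw (FPN.mul (FPN.add (FPN.mul hi hn) hj) hk))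
    (fun ρ => List.length_take_le _ _)

theorem okMF {n : (Fin m → List K) → ℕ} {w : (Fin m → List K) → Word}
    (hn : FPN m n) (hw : FPW m w) : FPB m (fun ρ => okM F (n ρ) (w ρ)) := by
  unfold okM
  refine FPB.and (FPB.eqN (FPW.len hw) (FPN.mul (FPN.mul hn hn) (FPN.const _))) ?_
  refine FPB.all (FPN.mul hn hn) (b := fun t ρ => okF F (blW (Fintype.card F) (w ρ) t)) ?_
  exact tbl.2.1 (m + 1) (Fintype.card F) (okF F) _
    (blF (FPN.const _) (FPW.weak hw) FPN.v0) (fun σ => List.length_take_le _ _)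

theorem okPF {p : ℕ} {k n : (Fin m → List K) → ℕ} {w : (Fin m → List K) → Word}
    (hk : FPN m k) (hn : FPN m n) (hw : FPW m w) : FPB m (fun ρ => okP p (k ρ) (n ρ) (w ρ)) := by
  unfold okP
  refine FPB.and (FPB.eqN (FPW.len hw) (FPN.mul (FPN.mul (FPN.mul hn hn) hk) (FPN.const _))) ?_
  refine FPB.all (FPN.mul (FPN.mul hn hn) hk)
    (b := fun t ρ => decide (bval (blW (db p) (w ρ) t) < p)) ?_
  exact tbl.2.1 (m + 1) (db p) (fun u => decide (bval u < p)) _
    (blF (FPN.const _) (FPW.weak hw) FPN.v0) (fun σ => List.length_take_le _ _)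

theorem monF {n : (Fin m → List K) → ℕ} {M : (Fin m → List K) → Word}
    (hn : FPN m n) (hM : FPW m M) : FPB m (fun ρ => monW F (n ρ) (M ρ)) := by
  have hn1 := FPN.weak hn
  have hn2 := FPN.weak hn1
  have hn3 := FPN.weak hn2
  have hM1 := FPW.weak hM
  have hM2 := FPW.weak hM1
  have hM3 := FPW.weak hM2
  have v2 : FPN (C := K) (m + 3) (fun σ => (σ 2).length) := FPN.len (FP.var 2)
  unfold monW
  refine FPB.and ?_ ?_
  · refine FPB.all hn (b := fun j ρ => decide (∃ i < n ρ, (!decide (gF F (n ρ) (M ρ) i j = 0) &&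
      decide (∀ i' < n ρ, (decide (i' = i) || decide (gF F (n ρ) (M ρ) i' j = 0)) = true)) =
        true)) ?_
    refine FPB.exists hn1 (b := fun i σ => (!decide (gF F (n fun i => σ i.succ)
      (M fun i => σ i.succ) i (σ 0).length = 0) && decide (∀ i' < n (fun i => σ i.succ),
        (decide (i' = i) || decide (gF F (n fun i => σ i.succ) (M fun i => σ i.succ) i'
          (σ 0).length = 0)) = true))) ?_
    refine FPB.and (FPB.not (eqF tbl (gFF tbl hn2 hM2 FPN.v0 FPN.v1) (FPW.const _))) ?_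
    refine FPB.all hn2 (b := fun i' σ => (decide (i' = (σ 0).length) ||
      decide (gF F (n fun i => σ i.succ.succ) (M fun i => σ i.succ.succ) i'
        (σ 1).length = 0))) ?_
    exact FPB.or (FPB.eqN FPN.v0 FPN.v1) (eqF tbl (gFF tbl hn3 hM3 FPN.v0 v2) (FPW.const _))
  · refine FPB.all hn (b := fun i ρ => decide (∃ j < n ρ,
      decide (gF F (n ρ) (M ρ) i j = 0) = false)) ?_
    refine FPB.congr (FPB.exists hn1 (b := fun j σ => !decide (gF F (n fun i => σ i.succ)
      (M fun i => σ i.succ) (σ 0).length j = 0)) ?_) fun σ => ?_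
    · exact FPB.not (eqF tbl (gFF tbl hn2 hM2 FPN.v1 FPN.v0) (FPW.const _))
    · simp

theorem rhoF {n : (Fin m → List K) → ℕ} {M A : (Fin m → List K) → Word}
    (hn : FPN m n) (hM : FPW m M) (hA : FPW m A) :
    FPB m (fun ρ => rhoW F (n ρ) (M ρ) (A ρ)) := by
  have hn1 := FPN.weak hn
  have hn2 := FPN.weak hn1
  have hn3 := FPN.weak hn2
  have hn4 := FPN.weak hn3
  have hM1 := FPW.weak hM
  have hM2 := FPW.weak hM1
  have hM3 := FPW.weak hM2
  have hM4 := FPW.weak hM3
  have hA1 := FPW.weak hA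
  have hA2 := FPW.weak hA1
  have hA3 := FPW.weak hA2
  have hA4 := FPW.weak hA3
  have v2 : FPN (C := K) (m + 4) (fun σ => (σ 2).length) := FPN.len (FP.var 2)
  have v3 : FPN (C := K) (m + 4) (fun σ => (σ 3).length) := FPN.len (FP.var 3)
  have q : ∀ r : ℕ, FPN (C := K) r (fun _ => Fintype.card F) := fun r => FPN.const _
  unfold rhoW
  refine FPB.and (FPB.eqN (FPW.len hA) (FPN.mul (FPN.mul hn (q m)) (FPN.mul hn (q m)))) ?_
  refine FPB.all hn (b := fun i ρ => decide (∀ j < n ρ, decide (∀ s < Fintype.card F,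
    decide (∀ t < Fintype.card F,
    decide (gt (n ρ * Fintype.card F) (A ρ) (i * Fintype.card F + s) (j * Fintype.card F + t) =
      decide (gF F (n ρ) (M ρ) i j ≠ 0 ∧ nF F s = gF F (n ρ) (M ρ) i j * nF F t)) = true) =
        true) = true)) ?_
  refine FPB.all hn1 (b := fun j σ => decide (∀ s < Fintype.card F,
    decide (∀ t < Fintype.card F,
    decide (gt (n (fun i => σ i.succ) * Fintype.card F) (A fun i => σ i.succ)
      ((σ 0).length * Fintype.card F + s) (j * Fintype.card F + t) =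
      decide (gF F (n fun i => σ i.succ) (M fun i => σ i.succ) (σ 0).length j ≠ 0 ∧
        nF F s = gF F (n fun i => σ i.succ) (M fun i => σ i.succ) (σ 0).length j * nF F t)) =
          true) = true)) ?_
  refine FPB.all (q (m + 2)) (b := fun s σ => decide (∀ t < Fintype.card F,
    decide (gt (n (fun i => σ i.succ.succ) * Fintype.card F) (A fun i => σ i.succ.succ)
      ((σ 1).length * Fintype.card F + s) ((σ 0).length * Fintype.card F + t) =
      decide (gF F (n fun i => σ i.succ.succ) (M fun i => σ i.succ.succ) (σ 1).length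
        (σ 0).length ≠ 0 ∧
        nF F s = gF F (n fun i => σ i.succ.succ) (M fun i => σ i.succ.succ) (σ 1).length
          (σ 0).length * nF F t)) = true)) ?_
  refine FPB.all (q (m + 3)) (b := fun t σ =>
    decide (gt (n (fun i => σ i.succ.succ.succ) * Fintype.card F)
      (A fun i => σ i.succ.succ.succ)
      ((σ 2).length * Fintype.card F + (σ 0).length) ((σ 1).length * Fintype.card F + t) =
      decide (gF F (n fun i => σ i.succ.succ.succ) (M fun i => σ i.succ.succ.succ) (σ 2).length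
        (σ 1).length ≠ 0 ∧
        nF F (σ 0).length = gF F (n fun i => σ i.succ.succ.succ)
          (M fun i => σ i.succ.succ.succ) (σ 2).length (σ 1).length * nF F t))) ?_
  have h1 := gtF (FPN.mul hn4 (q (m + 4))) hA4 (FPN.add (FPN.mul v3 (q (m + 4))) FPN.v1)
    (FPN.add (FPN.mul v2 (q (m + 4))) FPN.v0)
  have h2 := gFF (F := F) tbl hn4 hM4 v3 v2
  have h3 := FPB.not (eqF tbl h2 (FPW.const (cF F 0)))
  have h4 := eqF tbl (nFF tbl FPN.v1) (mulFF tbl h2 (nFF tbl FPN.v0))
  have h5 := FPB.and h3 h4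
  refine FPB.congr (FPB.or (FPB.and h1 h5) (FPB.and (FPB.not h1) (FPB.not h5))) fun σ => ?_
  rw [← decEqBool]
  congr 1
  rw [Bool.decide_and, decide_not]
  rfl

theorem eqWF {p : ℕ} {k n : (Fin m → List K) → ℕ} {w a a' M : (Fin m → List K) → Word}
    (hk : FPN m k) (hn : FPN m n) (hw : FPW m w) (ha : FPW m a) (ha' : FPW m a')
    (hM : FPW m M) : FPB m (fun ρ => eqW F p (k ρ) (n ρ) (w ρ) (a ρ) (a' ρ) (M ρ)) := by
  have hk1 := FPN.weak hk
  have hk2 := FPN.weak hk1
  have hk3 := FPN.weak hk2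
  have hn1 := FPN.weak hn
  have hn2 := FPN.weak hn1
  have hn3 := FPN.weak hn2
  have hw1 := FPW.weak hw
  have hw2 := FPW.weak hw1
  have hw3 := FPW.weak hw2
  have ha1 := FPW.weak ha
  have ha2 := FPW.weak ha1
  have ha3 := FPW.weak ha2
  have hb1 := FPW.weak ha'
  have hb2 := FPW.weak hb1
  have hb3 := FPW.weak hb2
  have hM1 := FPW.weak hM
  have hM2 := FPW.weak hM1
  have hM3 := FPW.weak hM2
  have v2 : FPN (C := K) (m + 3) (fun σ => (σ 2).length) := FPN.len (FP.var 2)
  unfold eqW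
  refine FPB.all hn (b := fun i ρ => decide (∀ j < n ρ, decide (
    (∑ l ∈ Finset.range (n ρ), (lowP p (k ρ) (n ρ) (w ρ) i l : F) * gF F (n ρ) (a ρ) l j) =
      ∑ l ∈ Finset.range (n ρ), gF F (n ρ) (a' ρ) i l * gF F (n ρ) (M ρ) l j) = true)) ?_
  refine FPB.all hn1 (b := fun j σ => decide (
    (∑ l ∈ Finset.range (n fun i => σ i.succ), (lowP p (k fun i => σ i.succ)
      (n fun i => σ i.succ) (w fun i => σ i.succ) (σ 0).length l : F) *
        gF F (n fun i => σ i.succ) (a fun i => σ i.succ) l j) =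
      ∑ l ∈ Finset.range (n fun i => σ i.succ), gF F (n fun i => σ i.succ)
        (a' fun i => σ i.succ) (σ 0).length l *
          gF F (n fun i => σ i.succ) (M fun i => σ i.succ) l j)) ?_
  refine eqF tbl
    (u := fun σ : Fin (m + 2) → List K => ∑ l ∈ Finset.range (n fun i => σ i.succ.succ),
      (lowP p (k fun i => σ i.succ.succ)
      (n fun i => σ i.succ.succ) (w fun i => σ i.succ.succ) (σ 1).length l : F) *
        gF F (n fun i => σ i.succ.succ) (a fun i => σ i.succ.succ) l (σ 0).length)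
    (v := fun σ : Fin (m + 2) → List K => ∑ l ∈ Finset.range (n fun i => σ i.succ.succ),
      gF F (n fun i => σ i.succ.succ)
        (a' fun i => σ i.succ.succ) (σ 1).length l *
          gF F (n fun i => σ i.succ.succ) (M fun i => σ i.succ.succ) l (σ 0).length) ?_ ?_
  · refine tbl.2.2.2.2.2 F (m + 2) _ (fun l σ => (lowP p (k fun i => σ i.succ.succ)
      (n fun i => σ i.succ.succ) (w fun i => σ i.succ.succ) (σ 1).length l : F) *
        gF F (n fun i => σ i.succ.succ) (a fun i => σ i.succ.succ) l (σ 0).length) hn2 ?_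
    exact mulFF tbl (lowF tbl hk3 hn3 hw3 v2 FPN.v0) (gFF tbl hn3 ha3 FPN.v0 FPN.v1)
  · refine tbl.2.2.2.2.2 F (m + 2) _ (fun l σ => gF F (n fun i => σ i.succ.succ)
        (a' fun i => σ i.succ.succ) (σ 1).length l *
          gF F (n fun i => σ i.succ.succ) (M fun i => σ i.succ.succ) l (σ 0).length) hn2 ?_
    exact mulFF tbl (gFF tbl hn3 hb3 v2 FPN.v0) (gFF tbl hn3 hM3 FPN.v0 FPN.v1)

end tables

/-- **MEM** -/
theorem mem (tbl : TblStmt) : MemStmt := by
  intro F _ _ _ V p d k hV m X Y Z A C hX hY hZ hA hC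
  have hn : FPN m (fun ρ => d.eval (X ρ).length) := FPN.poly (FPW.len hX) d
  have hk : FPN m (fun ρ => k.eval (X ρ).length) := FPN.poly (FPW.len hX) k
  have hN := FPN.mul (FPN.mul hn hn) (FPN.const (Fintype.card F))
  have hM := FPW.take hC hN
  have hw := FPW.drop hC hN
  exact FPB.and (FPB.and (FPB.and (FPB.and (FPB.and
    (okMF tbl hn hM) (monF tbl hn hM)) (rhoF tbl hn hM hA)) (okPF tbl hk hn hw))
    (FPB.call2 hV hX hw)) (eqWF tbl hk hn hw hY hZ hM)

end Pool.Agent.COSB.H60
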